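import Pool.Agent.Helper18_LPR.AsmH
import Pool.Agent.Helper69_LPR.DJU

set_option autoImplicit false

open Topology

namespace Pool.Agent.LPR.H18

open Pool.Agent.LSG Pool.Agent.LPR

/-- Every metrizable space which is locally a product with an interval is l-stable and S-stable. -/
theorem stable_ (X : Type) [TopologicalSpace X] [TopologicalSpace.MetrizableSpace X]
    (h : LocInt X) : LStable X ∧ SStable X :=
  stable (lps_ H69.dju) stb_ stl_ X h

/-- Every metrizable space with a free flow is l-stable and S-stable. -/
theorem flow_ (X : Type) [TopologicalSpace X] [TopologicalSpace.MetrizableSpace X]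
    (h : FreeFlow X) : LStable X ∧ SStable X :=
  stable_ X (locInt_of_flow flo_ X h)

/-- Every metrizable group with a nontrivial one-parameter subgroup is l-stable and S-stable. -/
theorem group_ (H : Type) [Group H] [TopologicalSpace H] [IsTopologicalGroup H]
    [TopologicalSpace.MetrizableSpace H] (γ : ℝ → H) (hγ : Continuous γ)
    (hadd : ∀ s t, γ (s + t) = γ s * γ t) (hne : ∃ t, γ t ≠ 1) : LStable H ∧ SStable H :=
  flow_ H (flow_of_group H γ hγ hadd hne)

end Pool.Agent.LPR.H18
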