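import Pool.Agent.LPR.Stmts

set_option autoImplicit false

open Set Topology

namespace Pool.Agent.LPR.H18

open Pool.Agent.LSG Pool.Agent.LPR

/-- row CLO -/
theorem clo : CloStmt := by
  intro X _ _ A hA
  obtain ⟨φ, _, hext⟩ := hA
  let _ : MetricSpace X := TopologicalSpace.metrizableSpaceMetric X
  by_contra hcl
  have h1 : ∃ x, x ∈ closure A ∧ x ∉ A := by
    by_contra h
    push Not at h
    exact hcl (isClosed_of_closure_subset h)
  obtain ⟨x, hx, hxA⟩ := h1
  have hpos : ∀ a : A, dist (a : X) x ≠ 0 := by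
    intro a h
    exact hxA ((dist_eq_zero.1 h) ▸ a.2)
  let f : C(A, ℝ) := ⟨fun a => (dist (a : X) x)⁻¹,
    Continuous.inv₀ (continuous_subtype_val.dist continuous_const) hpos⟩
  have hc : ContinuousAt (φ f) x := (φ f).continuous.continuousAt
  obtain ⟨δ, hδ, hb⟩ := Metric.continuousAt_iff.1 hc 1 one_pos
  have hM : 0 < |φ f x| + 1 := by positivity
  obtain ⟨a, haA, ha⟩ := Metric.mem_closure_iff.1 hx (min δ (|φ f x| + 1)⁻¹)
    (lt_min hδ (inv_pos.2 hM))
  rw [dist_comm] at ha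
  have h2 := hb (lt_of_lt_of_le ha (min_le_left _ _))
  have h3 : φ f a = (dist a x)⁻¹ := hext f ⟨a, haA⟩
  have h4 : 0 < dist a x := lt_of_le_of_ne dist_nonneg (Ne.symm (hpos ⟨a, haA⟩))
  have h5 : |φ f x| + 1 < (dist a x)⁻¹ := by
    rw [lt_inv_comm₀ hM h4]
    exact lt_of_lt_of_le ha (min_le_right _ _)
  rw [Real.dist_eq, h3] at h2
  have h6 := abs_lt.1 h2
  have h7 := le_abs_self (φ f x)
  linarith [h6.2]

end Pool.Agent.LPR.H18
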