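import Pool.Agent.LPR.Stmts

set_option autoImplicit false

open Set Topology

namespace Pool.Agent.LPR.H18

open Pool.Agent.LSG Pool.Agent.LPR

/-- `ℝ` acts continuously on `X` without fixed points. -/
def FreeFlow (X : Type) [TopologicalSpace X] : Prop :=
  ∃ φ : ℝ → X → X, Continuous (fun q : ℝ × X => φ q.1 q.2) ∧ (∀ x, φ 0 x = x) ∧
    (∀ s t x, φ (s + t) x = φ s (φ t x)) ∧ ∀ x, ∃ t, φ t x ≠ x

/-- a space with a free flow is locally a product with an interval -/
theorem locInt_of_flow (h4 : FloStmt) (X : Type) [TopologicalSpace X]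
    [TopologicalSpace.MetrizableSpace X] (h : FreeFlow X) : LocInt X := by
  obtain ⟨φ, hφ, h0, hadd, hfix⟩ := h
  intro x
  obtain ⟨N, hN, S, hS⟩ := h4 X φ hφ h0 hadd x (hfix x)
  exact ⟨N, hN, ↥S, inferInstance, hS⟩

/-- a group with a nontrivial one-parameter subgroup has a free flow -/
theorem flow_of_group (H : Type) [Group H] [TopologicalSpace H] [IsTopologicalGroup H]
    (γ : ℝ → H) (hγ : Continuous γ) (hadd : ∀ s t, γ (s + t) = γ s * γ t)
    (hne : ∃ t, γ t ≠ 1) : FreeFlow H := by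
  refine ⟨fun t h => h * γ t, ?_, ?_, ?_, ?_⟩
  · exact continuous_snd.mul (hγ.comp continuous_fst)
  · intro x
    have h0 : γ 0 = 1 := by
      have h := hadd 0 0
      rw [add_zero] at h
      exact (mul_eq_left.1 h.symm)
    simp only [h0, mul_one]
  · intro s t x
    simp only
    rw [add_comm s t, hadd t s, mul_assoc]
  · intro x
    obtain ⟨t, ht⟩ := hne
    exact ⟨t, fun h => ht (mul_eq_left.1 h)⟩

/-- the main theorem -/
theorem stable (h1 : LpsStmt) (h2 : StbStmt) (h3 : StlStmt) (X : Type) [TopologicalSpace X]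
    [TopologicalSpace.MetrizableSpace X] (h : LocInt X) : LStable X ∧ SStable X := by
  have hS : SStable X := h2 X (h1 X h)
  exact ⟨h3 X hS, hS⟩

/-- row FIN -/
theorem fin (h1 : LpsStmt) (h2 : StbStmt) (h3 : StlStmt) (h4 : FloStmt) : FinStmt := by
  refine ⟨?_, ?_, ?_⟩
  · intro X _ _ h
    exact stable h1 h2 h3 X h
  · intro X _ _ φ hφ h0 hadd hfix
    exact stable h1 h2 h3 X (locInt_of_flow h4 X ⟨φ, hφ, h0, hadd, hfix⟩)
  · intro H _ _ _ _ γ hγ hadd hne
    exact stable h1 h2 h3 H (locInt_of_flow h4 H (flow_of_group H γ hγ hadd hne))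

end Pool.Agent.LPR.H18
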