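import Pool.Agent.Helper18_LSG.AsmB
import Pool.Agent.Helper18_LPR.FIN
import Pool.Agent.Helper18_LPR.CLO
import Pool.Agent.Helper77_LPR.ALG
import Pool.Agent.Helper58_LPR.SGS
import Pool.Agent.Helper8_LPR.SUB
import Pool.Agent.Helper10_LPR.PU2
import Pool.Agent.Helper19_LPR.UNI
import Pool.Agent.Helper5_LPR.MIC
import Pool.Agent.Helper46_LPR.LGL
import Pool.Agent.Helper59_LPR.HAT
import Pool.Agent.Helper6_LPR.BAT
import Pool.Agent.Helper81_LPR.CHI
import Pool.Agent.Helper36_LPR.SLT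
import Pool.Agent.Helper76_LPR.RE1
import Pool.Agent.Helper23_LPR.REI
import Pool.Agent.Helper61_LPR.REP
import Pool.Agent.Helper9_LPR.REQ
import Pool.Agent.Helper50_LPR.REL
import Pool.Agent.Helper65_LPR.LOC
import Pool.Agent.Helper39_LPR.LPS
import Pool.Agent.Helper66_LPR.STB
import Pool.Agent.Helper60_LPR.CZD
import Pool.Agent.Helper75_LPR.STL
import Pool.Agent.Helper41_LPR.FLO

set_option autoImplicit false

namespace Pool.Agent.LPR.H18

open Pool.Agent.LSG Pool.Agent.LPR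

theorem dug_ : DugStmt := Pool.Agent.LSG.H37.dug
theorem sto_ : StoStmt := Pool.Agent.LSG.H18.sto Pool.Agent.LSG.H97.ctk
theorem cze_ : CzeStmt := Pool.Agent.LSG.H27.cze
theorem cpe_ : CpeStmt := Pool.Agent.LSG.H99.cpe
theorem bri_ : BriStmt := Pool.Agent.LSG.H21.bri

theorem uni_ : UniStmt := H19.uni H77.alg H58.sgs (H8.sub dug_) H10.pu2

theorem lgl_ (djuH : DjuStmt) : LglStmt := H46.lgl uni_ djuH (H5.mic sto_)

theorem rel_ : RelStmt :=
  H50.rel (H81.chi H59.hat H6.bat) H36.slt H76.re1 (H23.rei H76.re1) H61.rep (H9.req H76.re1)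

theorem lps_ (djuH : DjuStmt) : LpsStmt := H39.lps (lgl_ djuH) rel_ H65.loc

theorem stb_ : StbStmt := H66.stb H77.alg H58.sgs cze_ bri_

theorem stl_ : StlStmt := H75.stl clo (H60.czd dug_) H77.alg cze_ cpe_ bri_

theorem flo_ : FloStmt := H41.flo

end Pool.Agent.LPR.H18
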